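import Pool.Agent.MVO.StmtsV
import Pool.Agent.Helper98_MVO.TCA

set_option autoImplicit false

/-! Row TVA of the squad MVO: tightness of class Va over `O1`. -/

namespace Pool.Agent.MVO.H64

open Pool.Agent.Helper14_MV Pool.Agent.Helper2_MV Pool.Agent.MVO
open Pool.Agent.MVO.H65.TacRow (rr_mono rr_trans mem_sp' max_of le_of_max exists_max tb bmap_tb
  psh_tb deg_v2)
open Pool.Agent.MVO.H34 (deg_psh sp_psh sp_nonempty card_sp_le sp_sg deg_sg)
open Pool.Agent.MVO.H78.TaaRow (bt_mono min_of tb3 bmap_tb3 w3 psh_tb3 deg_w3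
  sp_w3_sub w3_min w3_max deg_v3 red1 red2 exists_min w3_le w2_le)
open Pool.Agent.MVO.H23 (deg_one)

namespace TvaRow

theorem ve_mono {β ρ : FIC} (h : β ≤ ρ) (hv : MVD.Ve β) : MVD.Ve ρ := by
  refine ⟨fun p c q x y h1 h2 h3 => rr_mono h (hv.1 p c q x y h1 h2 h3),
    fun p q c r x y h1 => rr_mono h (hv.2.1 p q c r x y h1),
    fun p q c r x y h1 => rr_mono h (hv.2.2 p q c r x y h1)⟩

/-- the map which leaves out the block `i + 1` -/
def sh (i : ℕ) : ℕ → ℕ := fun j => if j ≤ i then j else j + 1

theorem sh_inj {i s t : ℕ} (h : sh i s = sh i t) : s = t := by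
  unfold sh at h
  split_ifs at h <;> omega

theorem bmap_sh {k i : ℕ} : BMap k (k + 1) (sh i) := by
  refine ⟨fun s t hst _ => ?_, fun s hs => ?_⟩
  · unfold sh
    split_ifs <;> omega
  · unfold sh
    split_ifs <;> omega

theorem psh_sh {k i : ℕ} (hi : i ≤ k) (a : ℕ → ℕ) (j : ℕ) (hj : j ≤ k + 1) :
    spl i a j = psh k (sh i) a j := by
  unfold psh spl
  by_cases h1 : j ≤ i
  · rw [if_pos h1]
    symm
    rw [Finset.sum_eq_single j]
    · rw [if_pos]
      unfold sh
      rw [if_pos h1]
    · intro t _ htj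
      rw [if_neg]
      intro h2
      apply htj
      unfold sh at h2
      split_ifs at h2 <;> omega
    · intro h2
      exact absurd (Finset.mem_range.2 (by omega)) h2
  · rw [if_neg h1]
    by_cases h2 : j = i + 1
    · rw [if_pos h2]
      symm
      apply Finset.sum_eq_zero
      intro t _
      rw [if_neg]
      intro h3
      unfold sh at h3
      split_ifs at h3 <;> omega
    · rw [if_neg h2]
      symm
      rw [Finset.sum_eq_single (j - 1)]
      · rw [if_pos]
        unfold sh
        rw [if_neg (by omega)]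
        omega
      · intro t _ htj
        rw [if_neg]
        intro h3
        apply htj
        unfold sh at h3
        split_ifs at h3 <;> omega
      · intro h3
        exact absurd (Finset.mem_range.2 (by omega)) h3

/-- a vector with at most two blocks -/
theorem card_w2 {k p r x y z : ℕ} : (sp k (w3 p p r x y z)).card ≤ 2 := by
  have h7 : sp k (w3 p p r x y z) ⊆ {p, r} := by
    intro j hj
    have h := sp_w3_sub hj
    rw [Finset.mem_insert, Finset.mem_insert, Finset.mem_singleton] at h
    rw [Finset.mem_insert, Finset.mem_singleton]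
    omega
  exact (Finset.card_le_card h7).trans Finset.card_le_two

theorem sp_v2_le {x y : ℕ} : (sp 1 (v2 x y)).card ≤ 2 :=
  (Finset.card_le_card (Finset.filter_subset _ _)).trans (by rw [Finset.card_range])

theorem sp_v2_min {x y : ℕ} (hx : 1 ≤ x) : (sp 1 (v2 x y)).min = ((0 : ℕ) : WithTop ℕ) := by
  apply min_of
  · rw [mem_sp']
    refine ⟨Nat.zero_le 1, ?_⟩
    show x ≠ 0
    omega
  · intro j _
    exact Nat.zero_le j

theorem sg_self (i d : ℕ) : sg i d i = d := by
  unfold sg
  rw [if_pos rfl]

theorem sg_ne {i d j : ℕ} (h : j ≠ i) : sg i d j = 0 := by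
  unfold sg
  rw [if_neg h]

/-- the pushed vectors of `Vb5` -/
theorem vb5_lift (fv4 : Fv4Stmt) {ρ : FIC} (hv : MVD.Ve ρ) (h5 : Vb5 ρ) {k l j d : ℕ} {b : ℕ → ℕ}
    (hlj : l < j) (hj : j ≤ k) (hd : 3 ≤ d) (hl : 1 ≤ b l) (hbj : 1 ≤ b j) :
    Bt ρ k (sg l d) b l := by
  have h := fv4 ρ hv 1 k (tb l j) (v2 3 0) (v2 1 1) (sg l d) b 0 (bmap_tb hlj.le hj)
    (Nat.zero_le 1) (by show 1 ≤ 3; omega) (by show 1 ≤ 1; omega) (by rw [deg_v2]; omega)
    (by rw [deg_v2]) (by
      intro t ht1 ht2 ht3
      exfalso
      have h6 : t = 1 := by omega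
      subst h6
      unfold tb at ht3
      rw [if_neg (by omega), if_pos rfl] at ht3
      omega)
    (fun t _ => by
      rw [psh_tb]
      exact w2_le hlj (by rw [sg_self]; exact hd) (Nat.zero_le _) t)
    (fun t _ => by
      rw [psh_tb]
      exact w2_le hlj hl hbj t)
    h5
  exact h

/-- `Vb4` gives `Vb5` -/
theorem vb4_vb5 (fv4 : Fv4Stmt) {β : FIC} (hv : MVD.Ve β) (h4 : Vb4 β) : Vb5 β := by
  have h := fv4 β hv 2 1 (tb3 0 0 1) (v3 2 1 0) (v3 0 1 1) (v2 3 0) (v2 1 1) 1
    (bmap_tb3 (k := 1) (le_refl 0) (Nat.zero_le 1) le_rfl) (by omega) (by show 1 ≤ 1; omega)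
    (by show 1 ≤ 1; omega) (by rw [deg_v3]; omega) (by rw [deg_v3]) (by
      intro t ht1 ht2 ht3
      exfalso
      have h6 : t = 2 := by omega
      subst h6
      unfold tb3 at ht3
      simp at ht3)
    (fun t ht => by
      rw [psh_tb3]
      interval_cases t <;> simp [w3, v2])
    (fun t ht => by
      rw [psh_tb3]
      interval_cases t <;> simp [w3, v2])
    h4
  exact h

end TvaRow

open TvaRow

/-- **TVA** -/
theorem tva (oaa : OaaStmt) (oar : OarStmt) (fv1 : Fv1Stmt) (fv4 : Fv4Stmt) (fv6 : Fv6Stmt)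
    (fv7 : Fv7Stmt) (t2v : T2vStmt) : TvaStmt := by
  intro β hvβ ho1 hcl ρ hle _ k a a' hd hdd hL
  by_cases hLβ : L1 β k a a'
  · exact Or.inl hLβ
  right
  intro b e hb i hi
  revert e
  change Bt ρ k a b i
  have hv : MVD.Ve ρ := ve_mono hle hvβ
  have ho1ρ : O1 (FC.ofFIC ρ) := rr_mono hle ho1
  have hS : sp k a ≠ sp k a' := fun h => hLβ (oaa (FC.ofFIC β) k a a' (Or.inl ho1) hdd h)
  obtain ⟨d, hdeq⟩ : ∃ d, d = deg k a := ⟨_, rfl⟩
  by_cases hd2 : d = 2
  · exact t2v ρ hv k a a' b i (by omega) (by omega) hb hi hL hS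
  have hd3 : 3 ≤ d := by omega
  obtain ⟨V0, V2, V5⟩ := fv1 ρ hv
  -- rule (R)
  have R : ∀ a'' : ℕ → ℕ, L1 ρ k a a'' → 2 ≤ deg k a'' → ¬ VR k a'' b i →
      Bt ρ k a b i := fun a'' h1 h3 h4 => V2 k a a'' b i h1 (V0 k a'' b i h3 hb hi h4)
  by_cases hVR : VR k a b i
  swap
  · exact V0 k a b i hd hb hi hVR
  obtain ⟨hvr, hai, hbi, -⟩ := hVR
  obtain ⟨hIP, hBP, hAP, hCP⟩ := oar (FC.ofFIC ρ) k a a' (Or.inl ho1ρ) hd hdd hL hS
  have hcd : (sp k a).card ≤ deg k a := card_sp_le k a
  have hcd' : (sp k a').card ≤ deg k a' := card_sp_le k a'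
  obtain ⟨N, hN⟩ : ∃ N, N = max (sp k a).card (sp k a').card := ⟨_, rfl⟩
  rw [← hN] at hIP
  have h5 := le_max_left (sp k a).card (sp k a').card
  have h6 := le_max_right (sp k a).card (sp k a').card
  have hNd : N ≤ deg k a := by
    rw [hN]
    exact max_le hcd (by omega)
  rw [← hdeq] at hd hIP hBP hAP hCP hNd hcd
  have hca : (sp k a).card ≤ N := by omega
  -- the ends of the support
  have hne : (sp k a).Nonempty := sp_nonempty (by omega)
  have hne' : (sp k a').Nonempty := sp_nonempty (by omega)
  have hc1 : 1 ≤ (sp k a).card := Finset.card_pos.2 hne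
  have hc1' : 1 ≤ (sp k a').card := Finset.card_pos.2 hne'
  obtain ⟨p, hp, hpmin⟩ := exists_min hne
  obtain ⟨r, hr, hrmax⟩ := exists_max hne
  have hmina : (sp k a).min = (p : WithTop ℕ) := min_of hp hpmin
  have hmaxa : (sp k a).max = (r : WithBot ℕ) := max_of hr hrmax
  have hpk : p ≤ k := (mem_sp'.1 hp).1
  have hrk : r ≤ k := (mem_sp'.1 hr).1
  have hpr : p ≤ r := hpmin r hr
  have hip : p ≤ i := hpmin i (mem_sp'.2 ⟨hi, by omega⟩)
  have hir : i ≤ r := hrmax i (mem_sp'.2 ⟨hi, by omega⟩)
  -- vectors with two blocks and the same ends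
  have toc2 : 2 ≤ N → ∀ x z, 1 ≤ x → 1 ≤ z → x + z = d → L1 ρ k a (w3 p p r x 0 z) := by
    intro hN2 x z hx hz hs
    refine hIP k a _ hdeq.symm ?_ hca (card_w2.trans hN2) ?_ ?_
    · rw [deg_w3 hpk hpk hrk]
      omega
    · rw [hmina, w3_min hpk le_rfl hpr hx]
    · rw [hmaxa, w3_max hrk hpr hpr hz]
  by_cases hmax : (sp k a).max = (sp k a').max
  swap
  · -- different last blocks: `a ~ sg p d`
    by_cases hs : (sp k a).card = 1 ∧ (sp k a').card = 1
    · have hC := hCP hs.1 hs.2
      have h7 : L1 ρ 1 (v2 d 0) (v2 0 d) := by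
        have e1 : ∀ x y, x = 0 ∨ y = 0 → x + y = d → (sp 1 (v2 x y)).card = 1 := by
          intro x y hxy hs'
          rcases hxy with h | h
          · have h8 : sp 1 (v2 x y) = {1} := by
              ext j
              rw [mem_sp', Finset.mem_singleton]
              unfold v2
              constructor
              · rintro ⟨h9, h10⟩
                split_ifs at h10 <;> omega
              · rintro rfl
                refine ⟨le_rfl, ?_⟩
                rw [if_neg (by omega), if_pos rfl]
                omega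
            rw [h8, Finset.card_singleton]
          · have h8 : sp 1 (v2 x y) = {0} := by
              ext j
              rw [mem_sp', Finset.mem_singleton]
              unfold v2
              constructor
              · rintro ⟨h9, h10⟩
                split_ifs at h10 <;> omega
              · rintro rfl
                refine ⟨Nat.zero_le 1, ?_⟩
                rw [if_pos rfl]
                omega
            rw [h8, Finset.card_singleton]
        exact hC 1 (v2 d 0) (v2 0 d) (by rw [deg_v2]; omega) (by rw [deg_v2]; omega)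
          (e1 d 0 (Or.inr rfl) (by omega)) (e1 0 d (Or.inl rfl) (by omega))
      have h8 : L1 ρ k a (sg p d) := by
        refine oaa (FC.ofFIC ρ) k a (sg p d) (Or.inl ho1ρ) ?_ ?_
        · rw [deg_sg hpk]
          exact hdeq.symm
        · rw [sp_sg hpk (by omega)]
          obtain ⟨x, hx⟩ := Finset.card_eq_one.1 hs.1
          rw [hx] at hp ⊢
          rw [Finset.mem_singleton.1 hp]
      exact V2 k a _ b i h8 (fv7 ρ hv k p d 0 d b i hpk hi hd (by omega) (by omega) hb h7)
    · have hA := hAP hmax hs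
      have hN2 : 2 ≤ N := by omega
      have h7 : L1 ρ 1 (v2 d 0) (v2 (d - 1) 1) := by
        refine hA 1 (v2 d 0) (v2 (d - 1) 1) (by rw [deg_v2]; omega) (by rw [deg_v2]; omega)
          sp_v2_le sp_v2_le ?_
        rw [sp_v2_min (by omega), sp_v2_min (by omega)]
      have h8 : L1 ρ k a (sg p d) := by
        refine (FC.ofFIC ρ).trans (toc2 hN2 (d - 1) 1 (by omega) le_rfl (by omega))
          (hA k _ (sg p d) ?_ (deg_sg hpk) card_w2 ?_ ?_)
        · rw [deg_w3 hpk hpk hrk]
          omega
        · rw [sp_sg hpk (by omega), Finset.card_singleton]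
          omega
        · rw [w3_min hpk le_rfl hpr (by omega), sp_sg hpk (by omega), Finset.min_singleton]
          rfl
      exact V2 k a _ b i h8 (fv7 ρ hv k p d (d - 1) 1 b i hpk hi hd (by omega) le_rfl hb h7)
  -- the same last block
  have hr' : r ∈ sp k a' := by
    rw [hmaxa] at hmax
    exact Finset.mem_of_max hmax.symm
  have hrmax' : ∀ j ∈ sp k a', j ≤ r := by
    intro j hj
    rw [hmaxa] at hmax
    exact le_of_max hmax.symm hj
  have hsing : ∀ {P : Finset ℕ}, P.card = 1 → r ∈ P → P = {r} := by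
    intro P hP hmP
    obtain ⟨x, hx⟩ := Finset.card_eq_one.1 hP
    rw [hx] at hmP ⊢
    rw [Finset.mem_singleton.1 hmP]
  have hns : ¬ ((sp k a).card = 1 ∧ (sp k a').card = 1) := by
    rintro ⟨h7, h8⟩
    exact hS ((hsing h7 hr).trans (hsing h8 hr').symm)
  have hN2 : 2 ≤ N := by omega
  by_cases hmin : (sp k a).min = (sp k a').min
  swap
  · -- different first blocks
    have hB := hBP hmin hns
    have toc : ∀ c, deg k c = d → (sp k c).card ≤ 2 → (sp k c).max = (r : WithBot ℕ) →
        L1 ρ k a c := by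
      intro c e1 e2 e3
      refine (FC.ofFIC ρ).trans (toc2 hN2 (d - 1) 1 (by omega) le_rfl (by omega))
        (hB k _ c ?_ e1 card_w2 e2 ?_)
      · rw [deg_w3 hpk hpk hrk]
        omega
      · rw [w3_max hrk hpr hpr le_rfl, e3]
    have hsg : L1 ρ k a (sg r d) := by
      apply toc
      · exact deg_sg hrk
      · rw [sp_sg hrk (by omega), Finset.card_singleton]
        omega
      · rw [sp_sg hrk (by omega), Finset.max_singleton]
        rfl
    have hdsg : 2 ≤ deg k (sg r d) := by
      rw [deg_sg hrk]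
      exact hd
    by_cases hri : r = i
    swap
    · refine R _ hsg hdsg ?_
      rintro ⟨-, h7, -⟩
      rw [sg_ne (Ne.symm hri)] at h7
      omega
    subst hri
    by_cases hj : ∃ j, j < r ∧ 1 ≤ b j
    · obtain ⟨j, hjr, hbj⟩ := hj
      refine R (w3 j j r 1 0 (d - 1)) (toc _ ?_ card_w2 ?_) ?_ ?_
      · rw [deg_w3 (by omega) (by omega) hrk]
        omega
      · exact w3_max hrk hjr.le hjr.le (by omega)
      · rw [deg_w3 (by omega) (by omega) hrk]
        omega
      · rintro ⟨h7, -⟩
        rcases h7 j (by omega) (by omega) with h8 | h8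
        · unfold w3 at h8
          rw [if_pos rfl] at h8
          omega
        · omega
    push Not at hj
    by_cases hb2 : 2 ≤ b r
    · refine R _ hsg hdsg ?_
      rintro ⟨-, -, -, h7⟩
      rw [sg_self] at h7
      omega
    obtain ⟨j, hjk, hjr, hbj⟩ : ∃ j ≤ k, r < j ∧ 1 ≤ b j := by
      by_contra hcon
      push Not at hcon
      have h7 := deg_one (k := k) (b := b) hrk (fun j hjk hjr => by
        rcases Nat.lt_or_gt_of_ne hjr with h8 | h8
        · have := hj j h8
          omega
        · have := hcon j hjk h8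
          omega)
      omega
    have claim : Vb5 β := by
      rcases hcl.1 with h7 | h7
      · have hII : ¬ II (FC.ofFIC β) := by
          intro hII
          apply hLβ
          have h8 := (mem_sp'.1 hr).2
          have h9 := (mem_sp'.1 hr').2
          have e1 := red2 oaa hII ho1 h7 hrk _ a le_rfl (by omega) (by omega) hrmax
          have e2 := red2 oaa hII ho1 h7 hrk _ a' le_rfl (by omega) (by omega) hrmax'
          rw [← hdd] at e2
          exact (FC.ofFIC β).trans e1 ((FC.ofFIC β).symm e2)
        exact vb4_vb5 fv4 hvβ (hcl.2.resolve_left hII).2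
      · exact h7
    have claim' : Vb5 ρ := bt_mono hle claim
    exact V2 k a _ b r hsg (vb5_lift fv4 hv claim' hjr hjk hd3 hbi hbj)
  -- the same ends
  have hp' : p ∈ sp k a' := by
    rw [hmina] at hmin
    exact Finset.mem_of_min hmin.symm
  have hpmin' : ∀ j ∈ sp k a', p ≤ j := by
    intro j hj
    have h7 := Finset.min_le hj
    rw [← hmin, hmina] at h7
    exact WithTop.coe_le_coe.1 h7
  have hplt : p < r := by
    rcases hpr.lt_or_eq with h | h
    · exact h
    · exfalso
      apply hS
      have : ∀ {P : Finset ℕ}, p ∈ P → (∀ j ∈ P, p ≤ j) → (∀ j ∈ P, j ≤ r) → P = {p} := by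
        intro P h5 h6 h7
        ext j
        rw [Finset.mem_singleton]
        constructor
        · intro hj
          have h8 := h6 j hj
          have h9 := h7 j hj
          omega
        · rintro rfl
          exact h5
      rw [this hp hpmin hrmax, this hp' hpmin' hrmax']
  have hN3 : 3 ≤ N := by
    by_contra hlt
    apply hS
    have : ∀ {P : Finset ℕ}, r ∈ P → p ∈ P → P.card ≤ 2 → ({p, r} : Finset ℕ) = P := by
      intro P h7 h8 h9
      apply Finset.eq_of_subset_of_card_le
      · intro j hj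
        rw [Finset.mem_insert, Finset.mem_singleton] at hj
        rcases hj with rfl | rfl
        · exact h8
        · exact h7
      · rw [Finset.card_pair (by omega)]
        exact h9
    rw [← this hr hp (by omega), ← this hr' hp' (by omega)]
  have hII : ¬ II (FC.ofFIC β) := by
    intro hII
    apply hLβ
    have h5 := (mem_sp'.1 hp).2
    have h6 := (mem_sp'.1 hr).2
    have h7 := (mem_sp'.1 hp').2
    have h8 := (mem_sp'.1 hr').2
    obtain ⟨c, e1, e2, e3⟩ := red1 hII hplt hrk _ a le_rfl (by omega) (by omega) hpmin hrmax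
    obtain ⟨c', e1', e2', e3'⟩ := red1 hII hplt hrk _ a' le_rfl (by omega) (by omega) hpmin'
      hrmax'
    have e4 := oaa (FC.ofFIC β) k c c' (Or.inl ho1) (by omega) (by rw [e3, e3'])
    exact (FC.ofFIC β).trans e1 ((FC.ofFIC β).trans e4 ((FC.ofFIC β).symm e1'))
  have g3 : Vb3 ρ := bt_mono hle (hcl.2.resolve_left hII).1
  have g4 : Vb4 ρ := bt_mono hle (hcl.2.resolve_left hII).2
  -- vectors with at most three blocks and the same ends
  have toc : ∀ q x y z, p ≤ q → q ≤ r → 1 ≤ x → 1 ≤ z → x + y + z = d →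
      L1 ρ k a (w3 p q r x y z) := by
    intro q x y z hq1 hq2 hx hz hs
    refine hIP k a _ hdeq.symm ?_ hca ?_ ?_ ?_
    · rw [deg_w3 hpk (by omega) hrk]
      exact hs
    · exact (Finset.card_le_card sp_w3_sub).trans (Finset.card_le_three.trans hN3)
    · rw [hmina, w3_min hpk hq1 hpr hx]
    · rw [hmaxa, w3_max hrk hq2 hpr hz]
  have degw : ∀ q x y z, q ≤ k → x + y + z = d → 2 ≤ deg k (w3 p q r x y z) := by
    intro q x y z hq hs
    rw [deg_w3 hpk hq hrk, hs]
    exact hd
  by_cases hri : i = r
  swap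
  · by_cases hpi : i = p
    swap
    · -- an interior block
      refine R _ (toc p 1 0 (d - 1) le_rfl hpr le_rfl (by omega) (by omega))
        (degw _ _ _ _ hpk (by omega)) ?_
      rintro ⟨-, h7, -⟩
      unfold w3 at h7
      rw [if_neg hpi, if_neg hpi, if_neg hri] at h7
      omega
    · -- the first block
      subst hpi
      have hdp : deg (k + 1) (psh k (sh i) a) = d := by
        rw [deg_psh bmap_sh.le]
        exact hdeq.symm
      have hsp : sp (k + 1) (psh k (sh i) a) = (sp k a).image (sh i) := sp_psh bmap_sh.le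
      have hcard : (sp (k + 1) (psh k (sh i) a)).card ≤ N := by
        rw [hsp]
        exact Finset.card_image_le.trans hca
      have hmin2 : (sp (k + 1) (psh k (sh i) a)).min = (i : WithTop ℕ) := by
        rw [hsp]
        apply min_of
        · refine Finset.mem_image.2 ⟨i, hp, ?_⟩
          unfold sh
          rw [if_pos le_rfl]
        · intro j hj
          obtain ⟨t, ht, rfl⟩ := Finset.mem_image.1 hj
          have h7 := hpmin t ht
          unfold sh
          split_ifs <;> omega
      have hmax2 : (sp (k + 1) (psh k (sh i) a)).max = ((r + 1 : ℕ) : WithBot ℕ) := by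
        rw [hsp]
        apply max_of
        · refine Finset.mem_image.2 ⟨r, hr, ?_⟩
          unfold sh
          rw [if_neg (by omega)]
        · intro j hj
          obtain ⟨t, ht, rfl⟩ := Finset.mem_image.1 hj
          have h7 := hrmax t ht
          unfold sh
          split_ifs <;> omega
      have h7 : L1 ρ (k + 1) (psh k (sh i) a) (w3 i (i + 1) (r + 1) 1 1 (d - 2)) := by
        refine hIP (k + 1) _ _ hdp ?_ hcard ?_ ?_ ?_
        · rw [deg_w3 (by omega) (by omega) (by omega)]
          omega
        · exact (Finset.card_le_card sp_w3_sub).trans (Finset.card_le_three.trans hN3)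
        · rw [hmin2, w3_min (by omega) (by omega) (by omega) le_rfl]
        · rw [hmax2, w3_max (by omega) (by omega) (by omega) (by omega)]
      have h8 : L1 ρ (k + 1) (spl i a) (w3 i (i + 1) (r + 1) 1 1 (d - 2)) :=
        (FC.ofFIC ρ).ext (fun j hj => (psh_sh hi a j hj).symm) (fun _ _ => rfl) h7
      refine fv6 ρ hv k i a _ b hi hb (by omega) ?_ h8 ?_
      · rw [deg_w3 (by omega) (by omega) (by omega)]
        omega
      · unfold w3
        rw [if_neg (by omega), if_pos rfl]
        omega
  subst hri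
  -- the last block
  by_cases hj : ∃ j, p ≤ j ∧ j < i ∧ 1 ≤ b j
  · obtain ⟨j, hpj, hji, hbj⟩ := hj
    refine R _ (toc j 1 1 (d - 2) hpj hji.le le_rfl (by omega) (by omega))
      (degw _ _ _ _ (by omega) (by omega)) ?_
    rintro ⟨h7, -⟩
    rcases h7 j (by omega) (by omega) with h8 | h8
    · unfold w3 at h8
      rw [if_pos (rfl : j = j)] at h8
      omega
    · omega
  push Not at hj
  by_cases hb2 : 2 ≤ b i
  · refine R _ (toc p 1 0 (d - 1) le_rfl hpr le_rfl (by omega) (by omega))
      (degw _ _ _ _ hpk (by omega)) ?_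
    rintro ⟨-, -, -, h7⟩
    unfold w3 at h7
    rw [if_neg (by omega : ¬ i = p), if_pos (rfl : i = i)] at h7
    omega
  obtain ⟨j, hjk, hji, hbj⟩ : ∃ j ≤ k, j ≠ i ∧ 1 ≤ b j := by
    by_contra hcon
    push Not at hcon
    have h7 := deg_one (k := k) (b := b) hrk (fun j hjk hjr => by
      have := hcon j hjk hjr
      omega)
    omega
  have hc2 : w3 p p i (d - 1) 0 1 p = d - 1 := by
    unfold w3
    rw [if_pos rfl, if_pos rfl, if_neg (by omega)]
    omega
  have hc3 : w3 p p i (d - 1) 0 1 i = 1 := by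
    unfold w3
    rw [if_neg (by omega), if_neg (by omega), if_pos rfl]
  refine V2 k a _ b i (toc p (d - 1) 0 1 le_rfl hpr (by omega) le_rfl (by omega)) ?_
  rcases Nat.lt_or_ge j i with h7 | h7
  · have hjp : j < p := by
      by_contra h8
      have := hj j (by omega) h7
      omega
    have h9 := fv4 ρ hv 2 k (tb3 j p i) (v3 0 2 1) (v3 1 0 1) (w3 p p i (d - 1) 0 1) b 2
      (bmap_tb3 hjp.le hpr hrk) le_rfl (by show 1 ≤ 1; omega) (by show 1 ≤ 1; omega)
      (by rw [deg_v3]; omega) (by rw [deg_v3]) (by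
        intro t ht1 ht2
        omega)
      (fun t _ => by
        rw [psh_tb3]
        exact w3_le hjp hplt (Nat.zero_le _) (by rw [hc2]; omega) (by rw [hc3]) t)
      (fun t _ => by
        rw [psh_tb3]
        exact w3_le hjp hplt hbj (Nat.zero_le _) hbi t)
      g3
    exact h9
  · have hij : i < j := by omega
    have h9 := fv4 ρ hv 2 k (tb3 p i j) (v3 2 1 0) (v3 0 1 1) (w3 p p i (d - 1) 0 1) b 1
      (bmap_tb3 hpr hij.le hjk) (by omega) (by show 1 ≤ 1; omega) (by show 1 ≤ 1; omega)
      (by rw [deg_v3]; omega) (by rw [deg_v3]) (by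
        intro t ht1 ht2 ht3
        exfalso
        have h6 : t = 2 := by omega
        subst h6
        unfold tb3 at ht3
        rw [if_neg (by omega), if_neg (by omega), if_neg (by omega), if_pos rfl] at ht3
        omega)
      (fun t _ => by
        rw [psh_tb3]
        exact w3_le hplt hij (by rw [hc2]; omega) (by rw [hc3]) (Nat.zero_le _) t)
      (fun t _ => by
        rw [psh_tb3]
        exact w3_le hplt hij (Nat.zero_le _) hbi hbj t)
      g4
    exact h9

end Pool.Agent.MVO.H64
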